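import Pool.Agent.H75.GG.Targets2

/-! Row WGT of the board gsg_modules: the weights of the cells are probability weights. -/

set_option autoImplicit false

namespace Pool.Agent.H80.GG

open Finset Filter Pool.Agent.H6.NB Pool.Agent.H70.OQ Pool.Agent.H75.GS Pool.Agent.H75.GG

theorem pf_WGT (h9 : Pool.Agent.H6.NB.T_MUP) : T_WGT := by
  intro G hG
  have hlab : ∀ n (k : Fin (G.r n)), Nonempty {x : Xn n // G.lab n x = k} := by
    intro n k
    by_contra hne
    have h0 : (univ.filter fun x : Xn n => G.lab n x = k) = ∅ := by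
      rw [Finset.filter_eq_empty_iff]
      intro x _ hx
      exact hne ⟨x, hx⟩
    have h := hG n k
    rw [h0, Finset.card_empty, Nat.cast_zero, mul_zero] at h
    have h2 : (0 : ℝ) < 2 ^ n := by positivity
    linarith
  have hne : ∀ i, Nonempty (Val G i) := by
    intro i
    cases i with
    | inl n =>
      have h1 : ∀ k : Fin (G.r n), Nonempty ({x : Xn n // G.lab n x = k} × Ys n 0) :=
        fun k => (hlab n k).elim fun x => ⟨(x, fun _ => false)⟩
      exact ⟨(((fun _ _ => false, fun _ => false), fun k => (h1 k).some) :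
        Wn n × Spc G n)⟩
    | inr s => exact ⟨((false, fun _ _ => false) : Bool × (Fin (ns s) → VV (qs s) → Bool))⟩
  have hmu0 : ∀ b q p, 0 ≤ mu b q p := fun b q p => (h9 b q).1 p
  have hmu1 : ∀ b q, ∑ p, mu b q p = 1 := fun b q => (h9 b q).2.1
  refine ⟨hne, ?_, ?_⟩
  · intro i c
    cases i with
    | inl n =>
      change (0 : ℝ) ≤ 1 / (Fintype.card (Wn n × Spc G n) : ℝ)
      positivity
    | inr s =>
      change (0 : ℝ) ≤ 1 / 2 * ∏ i, mu _ (qs s) _
      exact mul_nonneg (by norm_num) (Finset.prod_nonneg fun i _ => hmu0 _ _ _)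
  · intro i
    cases i with
    | inl n =>
      change ∑ _c : Wn n × Spc G n, 1 / (Fintype.card (Wn n × Spc G n) : ℝ) = 1
      rw [Finset.sum_const, Finset.card_univ, nsmul_eq_mul, mul_one_div]
      have h1 : Nonempty (Wn n × Spc G n) := hne (.inl n)
      have h2 : (Fintype.card (Wn n × Spc G n) : ℝ) ≠ 0 := by
        exact_mod_cast Fintype.card_ne_zero
      exact div_self h2
    | inr s =>
      change ∑ c : Bool × (Fin (ns s) → VV (qs s) → Bool),
        1 / 2 * ∏ i, mu c.1 (qs s) (c.2 i) = (1 : ℝ)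
      rw [Fintype.sum_prod_type]
      have h1 : ∀ b : Bool, ∑ P : Fin (ns s) → VV (qs s) → Bool,
          1 / 2 * ∏ i, mu b (qs s) (P i) = (1 / 2 : ℝ) := by
        intro b
        rw [← Finset.mul_sum]
        have h2 := Fintype.sum_pow (fun p => mu b (qs s) p) (ns s)
        rw [hmu1, one_pow] at h2
        rw [← h2, mul_one]
      rw [Finset.sum_congr rfl fun b _ => h1 b]
      simp

end Pool.Agent.H80.GG
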